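import Pool.Agent.P8H71.SK.Stm

/-! # Project SK: the package GRP -/

set_option autoImplicit false

open Filter Topology

namespace Pool.Agent.P8H85.SK

open Pool.Agent.P8H71.SK

lemma len_conj {d : ℕ} {E : SLd d → ℝ} (hE : Len E) (k : SLd d) : Len (fun g => E (k * g * k⁻¹)) where
  nonneg g := hE.nonneg _
  mul g h := by
    have h1 : k * (g * h) * k⁻¹ = (k * g * k⁻¹) * (k * h * k⁻¹) := by group
    rw [h1]
    exact hE.mul _ _
  inv g := by
    have h1 : k * g⁻¹ * k⁻¹ = (k * g * k⁻¹)⁻¹ := by group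
    rw [h1]
    exact hE.inv _
  cont := by
    refine hE.cont.comp ?_
    have h1 : Continuous (fun g : SLd d => k * g * k⁻¹) := by fun_prop
    have h2 := h1.tendsto 1
    simpa using h2

theorem grp : S_GEN → S_LIM → S_CNJ → S_GRP := by
  intro hG hL hC d hd E hE g hg hEg h
  obtain ⟨c, e, hc, he, hce, hz⟩ := hL d hd E hE g hg hEg
  obtain ⟨k, i, j, hij, s, -, hk⟩ := hC d c e hc he hce
  have h1 := hG d (fun g => E (k * g * k⁻¹)) (len_conj hE k) i j hij
    (fun t => hz (s * t) _ (hk t)) (k⁻¹ * h * k)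
  have h2 : k * (k⁻¹ * h * k) * k⁻¹ = h := by group
  simpa only [h2] using h1

end Pool.Agent.P8H85.SK
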